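import Mathlib
import Pool.Agent.W44.LM.Cyc

set_option autoImplicit false

/-!
Leigh's chain: classes in which every state has one or `d` successors.
-/

namespace Pool.Agent.Q277.PC

open Finset Filter Pool.Agent.H319R2.M Pool.Agent.H319R2.Leigh Pool.Agent.W44.LM

/-- the state of the chain which follows the state `B` on the path of the integer `B.1` -/
def nx (d : ℕ) (m r : ℤ → ℤ) (e : ℤ → ℕ) (B : ℤ × ℕ) : ℤ × ℕ :=
  (T d m r B.1 % ((d * (B.2 * e (B.1 % d) / Nat.gcd (B.2 * e (B.1 % d)) d) : ℕ) : ℤ),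
    B.2 * e (B.1 % d) / Nat.gcd (B.2 * e (B.1 % d)) d)

/-- the number of steps before a state with `d` successors is met -/
noncomputable def hit (d : ℕ) (m r : ℤ → ℤ) (e : ℤ → ℕ) (B : ℤ × ℕ) : ℕ :=
  sInf {t : ℕ | succ d e ((nx d m r e)^[t] B) = d}

/-- the product of the numbers `b` up to the first state with `d` successors -/
noncomputable def bt (d : ℕ) (m r b : ℤ → ℤ) (e : ℤ → ℕ) (B : ℤ × ℕ) : ℤ :=
  ∏ t ∈ range (hit d m r e B + 1), b (((nx d m r e)^[t] B).1 % d)

variable {d : ℕ} {m r b : ℤ → ℤ} {e : ℤ → ℕ} {C : Finset (ℤ × ℕ)} {ρ : ℤ × ℕ → ℝ}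

theorem nx_P (D : Data d m r b e) (hC : Class d m r e C ρ) {B : ℤ × ℕ} (hB : B ∈ C) :
    0 < P d m r e B (nx d m r e B) := by
  rw [P_pos_iff D]
  have hk := state_pos D hC hB
  have he := D.pos _ (res0 D B.1) (res1 D B.1)
  have hg := gcd_pos D B
  set g0 := Nat.gcd (B.2 * e (B.1 % d)) d with hg0
  have hdvd : g0 ∣ B.2 * e (B.1 % d) := Nat.gcd_dvd_left _ _
  have hke : 0 < B.2 * e (B.1 % d) := Nat.mul_pos (by omega) (by omega)
  have hk' : 0 < B.2 * e (B.1 % d) / g0 := Nat.div_pos (Nat.le_of_dvd hke hdvd) hg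
  have hd := d_pos D
  have hM : (0 : ℤ) < ((d * (B.2 * e (B.1 % d) / g0) : ℕ) : ℤ) := by
    exact_mod_cast Nat.mul_pos hd hk'
  refine ⟨rfl, Int.emod_nonneg _ hM.ne', ?_, ?_⟩
  · have h := Int.emod_lt_of_pos (T d m r B.1) hM
    push_cast at h
    exact_mod_cast h
  · have h1 : ((B.2 * e (B.1 % d) : ℕ) : ℤ) ∣ ((d * (B.2 * e (B.1 % d) / g0) : ℕ) : ℤ) := by
      obtain ⟨c, hc⟩ : g0 ∣ d := Nat.gcd_dvd_right _ _
      have h2 : B.2 * e (B.1 % d) ∣ d * (B.2 * e (B.1 % d) / g0) := by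
        refine ⟨c, ?_⟩
        obtain ⟨q, hq⟩ := hdvd
        rw [hq, Nat.mul_div_cancel_left _ hg]
        conv_lhs => rw [hc]
        ring
      exact_mod_cast h2
    exact (Int.ModEq.of_dvd h1 (Int.mod_modEq _ _)).symm

theorem nx_mem (D : Data d m r b e) (hC : Class d m r e C ρ) {B : ℤ × ℕ} (hB : B ∈ C) :
    nx d m r e B ∈ C := hC.closed B hB _ (nx_P D hC hB)

theorem iter_mem (D : Data d m r b e) (hC : Class d m r e C ρ) {B : ℤ × ℕ} (hB : B ∈ C) (t : ℕ) :
    (nx d m r e)^[t] B ∈ C := by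
  induction t with
  | zero => exact hB
  | succ t ih =>
    rw [Function.iterate_succ_apply']
    exact nx_mem D hC ih

theorem nx_unique (D : Data d m r b e) (hC : Class d m r e C ρ) {B B' : ℤ × ℕ} (hB : B ∈ C)
    (h1 : succ d e B = 1) (h : 0 < P d m r e B B') : B' = nx d m r e B :=
  det D B B' _ h1 h (nx_P D hC hB)

/-- a number which divides a power of `d` and is coprime to `d` is one -/
theorem eq_one_of_pow {k d N : ℕ} (h : k ∣ d ^ N) (hc : Nat.Coprime k d) : k = 1 :=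
  Nat.Coprime.eq_one_of_dvd (Nat.Coprime.pow_right N hc) h

theorem full_state (D : Data d m r b e) (hC : Class d m r e C ρ) {B : ℤ × ℕ} (hB : B ∈ C)
    (h : succ d e B = d) : B.2 = 1 ∧ e (B.1 % d) = 1 := by
  have h1 := succ_mul D B
  rw [h] at h1
  have hd := d_pos D
  have hg : Nat.gcd (B.2 * e (B.1 % d)) d = 1 := by
    have : d * Nat.gcd (B.2 * e (B.1 % d)) d = d * 1 := by rw [h1, mul_one]
    exact Nat.eq_of_mul_eq_mul_left hd this
  have hcop : Nat.Coprime (B.2 * e (B.1 % d)) d := hg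
  obtain ⟨-, -, N, hN⟩ := hC.state B hB
  obtain ⟨N', hN'⟩ := D.dvd_pow _ (res0 D B.1) (res1 D B.1)
  exact ⟨eq_one_of_pow hN (Nat.Coprime.coprime_mul_right hcop),
    eq_one_of_pow hN' (Nat.Coprime.coprime_mul_left hcop)⟩

theorem full_P (D : Data d m r b e) (hC : Class d m r e C ρ) {B : ℤ × ℕ} (hB : B ∈ C)
    (h : succ d e B = d) (B' : ℤ × ℕ) : 0 < P d m r e B B' ↔ B'.2 = 1 ∧ 0 ≤ B'.1 ∧ B'.1 < d := by
  obtain ⟨h1, h2⟩ := full_state D hC hB h
  rw [P_pos_iff D, h1, h2]
  simp only [mul_one, Nat.gcd_one_left, Nat.div_self Nat.one_pos, Nat.cast_one]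
  constructor
  · rintro ⟨a1, a2, a3, -⟩
    rw [a1] at a3
    refine ⟨a1, a2, by simpa using a3⟩
  · rintro ⟨a1, a2, a3⟩
    refine ⟨a1, a2, ?_, Int.modEq_one⟩
    rw [a1]; simpa using a3

/-- all the residue classes modulo `d` are states -/
theorem res_mem (D : Data d m r b e) (hC : Class d m r e C ρ) {B : ℤ × ℕ} (hB : B ∈ C)
    (h : succ d e B = d) (j : ℤ) (h0 : 0 ≤ j) (h1 : j < d) : (j, 1) ∈ C :=
  hC.closed B hB _ ((full_P D hC hB h (j, 1)).2 ⟨rfl, h0, h1⟩)

theorem exists_hit (D : Data d m r b e) (hC : Class d m r e C ρ)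
    (hp : ∀ B ∈ C, succ d e B = 1 ∨ succ d e B = d) {G : ℤ × ℕ} (hG : G ∈ C)
    (hGd : succ d e G = d) {B : ℤ × ℕ} (hB : B ∈ C) :
    ∃ t : ℕ, succ d e ((nx d m r e)^[t] B) = d := by
  have h := hC.comm B hB G hG
  induction h using Relation.ReflTransGen.head_induction_on with
  | refl => exact ⟨0, hGd⟩
  | head h1 _ ih =>
    rcases hp _ hB with h2 | h2
    · obtain ⟨t, ht⟩ := ih (hC.closed _ hB _ h1)
      rw [nx_unique D hC hB h2 h1] at ht
      exact ⟨t + 1, by rwa [Function.iterate_succ_apply]⟩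
    · exact ⟨0, h2⟩

theorem hit_full {B : ℤ × ℕ} (h : succ d e B = d) : hit d m r e B = 0 := by
  unfold hit
  apply Nat.sInf_eq_zero.2
  left
  exact h

theorem hit_step {B : ℤ × ℕ} (h : succ d e B ≠ d)
    (hex : ∃ t : ℕ, succ d e ((nx d m r e)^[t] B) = d) :
    hit d m r e B = hit d m r e (nx d m r e B) + 1 := by
  obtain ⟨t, ht⟩ := hex
  have ht0 : t ≠ 0 := by
    rintro rfl
    exact h ht
  obtain ⟨s, rfl⟩ := Nat.exists_eq_succ_of_ne_zero ht0
  have hne : {t : ℕ | succ d e ((nx d m r e)^[t] B) = d}.Nonempty := ⟨_, ht⟩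
  have hne' : {t : ℕ | succ d e ((nx d m r e)^[t] (nx d m r e B)) = d}.Nonempty :=
    ⟨s, by rw [Function.iterate_succ_apply] at ht; exact ht⟩
  apply le_antisymm
  · apply Nat.sInf_le
    have := Nat.sInf_mem hne'
    change succ d e ((nx d m r e)^[hit d m r e (nx d m r e B) + 1] B) = d
    rw [Function.iterate_succ_apply]
    exact this
  · have hmem := Nat.sInf_mem hne
    have hz : hit d m r e B ≠ 0 := by
      intro h0
      have h1 : succ d e ((nx d m r e)^[hit d m r e B] B) = d := hmem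
      rw [h0] at h1
      exact h h1
    obtain ⟨s', hs'⟩ := Nat.exists_eq_succ_of_ne_zero hz
    have h1 : succ d e ((nx d m r e)^[hit d m r e B] B) = d := hmem
    rw [hs', Function.iterate_succ_apply] at h1
    have h2 : hit d m r e (nx d m r e B) ≤ s' := Nat.sInf_le h1
    omega

theorem bt_full {B : ℤ × ℕ} (h : succ d e B = d) : bt d m r b e B = b (B.1 % d) := by
  unfold bt
  rw [hit_full h]
  simp

theorem bt_step {B : ℤ × ℕ} (h : succ d e B ≠ d)
    (hex : ∃ t : ℕ, succ d e ((nx d m r e)^[t] B) = d) :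
    bt d m r b e B = b (B.1 % d) * bt d m r b e (nx d m r e B) := by
  unfold bt
  rw [hit_step h hex, prod_range_succ', mul_comm]
  rfl

/-- `T` acts on a state by an affine map -/
theorem T_diff (D : Data d m r b e) {B : ℤ × ℕ} {x y : ℤ}
    (hx : x ≡ B.1 [ZMOD (d * B.2 : ℕ)]) (hy : y ≡ B.1 [ZMOD (d * B.2 : ℕ)]) :
    (d : ℤ) * (T d m r x - T d m r y) = b (B.1 % d) * e (B.1 % d) * (x - y) := by
  have hd : ((d : ℕ) : ℤ) ∣ ((d * B.2 : ℕ) : ℤ) := by push_cast; exact dvd_mul_right _ _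
  have h1 : x % d = B.1 % d := hx.of_dvd hd
  have h2 : y % d = B.1 % d := hy.of_dvd hd
  have e1 : (d : ℤ) * T d m r x = m (x % d) * x - r (x % d) := (gm D).T_mul x
  have e2 : (d : ℤ) * T d m r y = m (y % d) * y - r (y % d) := (gm D).T_mul y
  rw [h1] at e1
  rw [h2] at e2
  rw [mul_sub, e1, e2, D.fac _ (res0 D B.1) (res1 D B.1)]
  ring

/-- the accelerated map is affine on each state -/
theorem affine (D : Data d m r b e) (hC : Class d m r e C ρ)
    (hp : ∀ B ∈ C, succ d e B = 1 ∨ succ d e B = d) {G : ℤ × ℕ} (hG : G ∈ C)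
    (hGd : succ d e G = d) : ∀ n : ℕ, ∀ B ∈ C, hit d m r e B = n → ∀ x y : ℤ,
    x ≡ B.1 [ZMOD (d * B.2 : ℕ)] → y ≡ B.1 [ZMOD (d * B.2 : ℕ)] →
    (d : ℤ) * B.2 * ((T d m r)^[n + 1] x - (T d m r)^[n + 1] y) = bt d m r b e B * (x - y) := by
  intro n
  induction n with
  | zero =>
    intro B hB hn x y hx hy
    have hex := exists_hit D hC hp hG hGd hB
    have hfull : succ d e B = d := by
      by_contra h
      have := hit_step h hex
      omega
    obtain ⟨h1, h2⟩ := full_state D hC hB hfull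
    have h3 := T_diff D hx hy
    rw [h2] at h3
    rw [bt_full hfull, h1]
    simp only [Function.iterate_one, zero_add]
    push_cast at h3 ⊢
    linarith
  | succ n ih =>
    intro B hB hn x y hx hy
    have hex := exists_hit D hC hp hG hGd hB
    have hd1 : succ d e B ≠ d := by
      intro h
      rw [hit_full h] at hn
      omega
    have h1 : succ d e B = 1 := (hp B hB).resolve_right hd1
    have hst := hit_step hd1 hex
    have hB' := nx_mem D hC hB
    obtain ⟨B1, hB1, hP1, hx1⟩ := next D hC hB hx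
    obtain ⟨B2, hB2, hP2, hy1⟩ := next D hC hB hy
    rw [nx_unique D hC hB h1 hP1] at hx1
    rw [nx_unique D hC hB h1 hP2] at hy1
    have h2 := ih _ hB' (by omega) _ _ hx1 hy1
    rw [← Function.iterate_succ_apply, ← Function.iterate_succ_apply] at h2
    have h3 := T_diff D hx hy
    rw [bt_step hd1 hex]
    have hgd : Nat.gcd (B.2 * e (B.1 % d)) d = d := by
      have := succ_mul D B
      rwa [h1, one_mul] at this
    have hk : d * (nx d m r e B).2 = B.2 * e (B.1 % d) := by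
      change d * (B.2 * e (B.1 % d) / Nat.gcd (B.2 * e (B.1 % d)) d) = _
      rw [hgd]
      apply Nat.mul_div_cancel'
      have h3 := Nat.gcd_dvd_left (B.2 * e (B.1 % d)) d
      rwa [hgd] at h3
    have hk' : (d : ℤ) * ((nx d m r e B).2 : ℤ) = B.2 * e (B.1 % d) := by exact_mod_cast hk
    have he : (e (B.1 % d) : ℤ) ≠ 0 := by
      have := D.pos _ (res0 D B.1) (res1 D B.1)
      positivity
    rw [hk'] at h2
    apply mul_left_cancel₀ he
    calc (e (B.1 % d) : ℤ) * ((d : ℤ) * B.2 *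
          ((T d m r)^[n + 1 + 1] x - (T d m r)^[n + 1 + 1] y)) =
        (d : ℤ) * (B.2 * e (B.1 % d) *
          ((T d m r)^[n + 1 + 1] x - (T d m r)^[n + 1 + 1] y)) := by ring
      _ = (d : ℤ) * (bt d m r b e (nx d m r e B) * (T d m r x - T d m r y)) := by rw [h2]
      _ = bt d m r b e (nx d m r e B) * ((d : ℤ) * (T d m r x - T d m r y)) := by ring
      _ = _ := by rw [h3]; ring

theorem bt_coprime (D : Data d m r b e) (B : ℤ × ℕ) : IsCoprime (bt d m r b e B) (d : ℤ) := by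
  unfold bt
  apply IsCoprime.prod_left
  intro t _
  exact D.cop _ (res0 D _) (res1 D _)

theorem bt_ne (D : Data d m r b e) (B : ℤ × ℕ) : bt d m r b e B ≠ 0 := by
  unfold bt
  rw [prod_ne_zero_iff]
  intro t _
  exact b_ne D _

/-- the stationary distribution is positive -/
theorem ρ_pos (hC : Class d m r e C ρ) : ∀ B ∈ C, 0 < ρ B := by
  obtain ⟨B0, hB0, h0⟩ : ∃ B ∈ C, 0 < ρ B := by
    by_contra hcon
    push Not at hcon
    have h1 : ∑ B ∈ C, ρ B ≤ 0 := sum_nonpos fun B hB => hcon B hB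
    rw [hC.sum_one] at h1
    linarith
  intro B hB
  have h := hC.comm B0 hB0 B hB
  have key : B ∈ C ∧ 0 < ρ B := by
    clear hB
    induction h with
    | refl => exact ⟨hB0, h0⟩
    | tail _ h2 ih =>
      rename_i X Y _
      obtain ⟨hX, hX0⟩ := ih
      have hY : Y ∈ C := hC.closed X hX Y h2
      refine ⟨hY, ?_⟩
      rw [← hC.stat Y hY]
      have h3 : ρ X * P d m r e X Y ≤ ∑ B ∈ C, ρ B * P d m r e B Y :=
        single_le_sum (f := fun B => ρ B * P d m r e B Y) (fun B hB => by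
          apply mul_nonneg (hC.nonneg B hB)
          unfold P
          split_ifs
          · positivity
          · exact le_rfl) hX
      have := mul_pos hX0 h2
      linarith
  exact key.2

/-- the potential: the logarithm of the multiplier of the accelerated map -/
noncomputable def pot (d : ℕ) (m r b : ℤ → ℤ) (e : ℤ → ℕ) (B : ℤ × ℕ) : ℝ :=
  Real.log |(bt d m r b e B : ℝ)| - Real.log d

theorem pot_full (D : Data d m r b e) {B : ℤ × ℕ} (h : succ d e B = d) :
    pot d m r b e B = Real.log (β d b e B) := by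
  unfold pot
  rw [bt_full h, log_β D, h]
  push_cast
  rfl

theorem pot_step (D : Data d m r b e) {B : ℤ × ℕ} (h : succ d e B ≠ d) (h1 : succ d e B = 1)
    (hex : ∃ t : ℕ, succ d e ((nx d m r e)^[t] B) = d) :
    pot d m r b e B = Real.log (β d b e B) + pot d m r b e (nx d m r e B) := by
  unfold pot
  have hb : (b (B.1 % d) : ℝ) ≠ 0 := by exact_mod_cast b_ne D B.1
  have hbt : (bt d m r b e (nx d m r e B) : ℝ) ≠ 0 := by exact_mod_cast bt_ne D _
  rw [bt_step h hex, log_β D, h1]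
  push_cast
  rw [abs_mul, Real.log_mul (abs_ne_zero.2 hb) (abs_ne_zero.2 hbt), Real.log_one]
  ring

end Pool.Agent.Q277.PC
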