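import Mathlib
import Pool.Agent.Q277.PC.Acc

set_option autoImplicit false

/-!
Leigh's chain: the accelerated map of a class in which every state has one or `d` successors.
-/

namespace Pool.Agent.Q277.PC

open Finset Filter Pool.Agent.H319R2.M Pool.Agent.H319R2.Leigh Pool.Agent.W44.LM

variable {d : ℕ} {m r b : ℤ → ℤ} {e : ℤ → ℕ} {C : Finset (ℤ × ℕ)} {ρ : ℤ × ℕ → ℝ}

/-- sums over the successors of a state with one successor -/
theorem sum_det (D : Data d m r b e) (hC : Class d m r e C ρ) {B : ℤ × ℕ} (hB : B ∈ C)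
    (h1 : succ d e B = 1) (f : ℤ × ℕ → ℝ) :
    ∑ B' ∈ C, P d m r e B B' * f B' = f (nx d m r e B) := by
  have hval : P d m r e B (nx d m r e B) = 1 := by
    rw [P_val D B _ (nx_P D hC hB), h1]; norm_num
  rw [sum_eq_single (nx d m r e B)]
  · rw [hval, one_mul]
  · intro B' _ hne
    rcases P_zero_or (d := d) (m := m) (r := r) (e := e) B B' with h | h
    · rw [h, zero_mul]
    · exact absurd (nx_unique D hC hB h1 h) hne
  · intro h
    exact absurd (nx_mem D hC hB) h

/-- sums over the successors of a state with `d` successors -/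
theorem sum_full (D : Data d m r b e) (hC : Class d m r e C ρ) {B : ℤ × ℕ} (hB : B ∈ C)
    (h1 : succ d e B = d) (f : ℤ × ℕ → ℝ) :
    ∑ B' ∈ C, P d m r e B B' * f B' = (∑ j ∈ range d, f ((j : ℤ), 1)) / d := by
  classical
  have hsub : (range d).image (fun j : ℕ => ((j : ℤ), 1)) ⊆ C := by
    intro x hx
    rw [mem_image] at hx
    obtain ⟨j, hj, rfl⟩ := hx
    rw [mem_range] at hj
    exact res_mem D hC hB h1 j (by positivity) (by exact_mod_cast hj)
  rw [← sum_subset hsub]
  · rw [sum_image]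
    · rw [sum_div]
      apply sum_congr rfl
      intro j hj
      rw [mem_range] at hj
      have h2 : 0 < P d m r e B ((j : ℤ), 1) :=
        (full_P D hC hB h1 _).2 ⟨rfl, Int.natCast_nonneg j, Int.ofNat_lt.2 hj⟩
      rw [P_val D B _ h2, h1]
      ring
    · intro x _ y _ hxy
      simpa using hxy
  · intro B' _ hB'
    rcases P_zero_or (d := d) (m := m) (r := r) (e := e) B B' with h | h
    · rw [h, zero_mul]
    · exfalso
      apply hB'
      obtain ⟨a1, a2, a3⟩ := (full_P D hC hB h1 B').1 h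
      rw [mem_image]
      refine ⟨B'.1.toNat, ?_, ?_⟩
      · rw [mem_range]; omega
      · apply Prod.ext
        · simp only
          omega
        · exact a1.symm

/-- the mean formula -/
theorem mean (D : Data d m r b e) (hC : Class d m r e C ρ)
    (hp : ∀ B ∈ C, succ d e B = 1 ∨ succ d e B = d) {G : ℤ × ℕ} (hG : G ∈ C)
    (hGd : succ d e G = d) :
    Real.log (Lam d m C ρ) = (∑ B ∈ C.filter (fun B => succ d e B = d), ρ B) *
      ((∑ j ∈ range d, pot d m r b e ((j : ℤ), 1)) / d) := by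
  have hd2 := D.two_le
  rw [log_Lam_β D hC]
  have h1 : ∀ B ∈ C, ρ B * Real.log (β d b e B) =
      ρ B * pot d m r b e B - ∑ B' ∈ C, ρ B * P d m r e B B' * pot d m r b e B' +
        (if succ d e B = d then ρ B * ((∑ j ∈ range d, pot d m r b e ((j : ℤ), 1)) / d) else 0) := by
    intro B hB
    have h2 : ∑ B' ∈ C, ρ B * P d m r e B B' * pot d m r b e B' =
        ρ B * ∑ B' ∈ C, P d m r e B B' * pot d m r b e B' := by
      rw [mul_sum]
      exact sum_congr rfl fun B' _ => by ring
    rw [h2]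
    by_cases hf : succ d e B = d
    · rw [if_pos hf, sum_full D hC hB hf, pot_full D hf]
      ring
    · have h3 : succ d e B = 1 := (hp B hB).resolve_right hf
      rw [if_neg hf, sum_det D hC hB h3,
        pot_step D hf h3 (exists_hit D hC hp hG hGd hB)]
      ring
  rw [sum_congr rfl h1, sum_add_distrib, sum_sub_distrib, sum_comm]
  have h2 : ∑ B' ∈ C, ∑ B ∈ C, ρ B * P d m r e B B' * pot d m r b e B' =
      ∑ B' ∈ C, ρ B' * pot d m r b e B' := by
    apply sum_congr rfl
    intro B' hB'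
    rw [← sum_mul, hC.stat B' hB']
  rw [h2, sub_self, zero_add, ← sum_filter, ← sum_mul]

/-- a closed path with product greater than one gives a large multiplier -/
theorem big_of_path (D : Data d m r b e) (hC : Class d m r e C ρ)
    (hp : ∀ B ∈ C, succ d e B = 1 ∨ succ d e B = d) {G : ℤ × ℕ} (hG : G ∈ C)
    (hGd : succ d e G = d) {p : ℕ} {γ : ℕ → ℤ × ℕ} (h : ClosedPath d m r e C p γ)
    (hgt : 1 < pathProd d m p γ) : ∃ j ∈ range d, 0 < pot d m r b e ((j : ℤ), 1) := by
  by_contra hcon
  push Not at hcon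
  rw [pathProd_eq D hC h] at hgt
  have hlog : 0 < ∑ t ∈ range p, Real.log (β d b e (γ t)) := by
    rw [← Real.log_prod (fun t _ => (β_pos D (γ t)).ne')]
    exact Real.log_pos hgt
  have h1 : ∀ t ∈ range p, Real.log (β d b e (γ t)) ≤
      pot d m r b e (γ t) - pot d m r b e (γ (t + 1)) := by
    intro t ht
    rw [mem_range] at ht
    have hm := mem_path hC h t ht.le
    have hP := h.step t ht
    by_cases hf : succ d e (γ t) = d
    · rw [← pot_full (b := b) D hf]
      obtain ⟨a1, a2, a3⟩ := (full_P D hC hm hf _).1 hP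
      have h2 : γ (t + 1) = (((γ (t + 1)).1.toNat : ℤ), 1) := by
        apply Prod.ext
        · simp only
          omega
        · exact a1
      have h3 : pot d m r b e (γ (t + 1)) ≤ 0 := by
        rw [h2]
        apply hcon
        rw [mem_range]
        omega
      linarith
    · have h3 : succ d e (γ t) = 1 := (hp _ hm).resolve_right hf
      rw [pot_step D hf h3 (exists_hit D hC hp hG hGd hm), nx_unique D hC hm h3 hP]
      linarith
  have h2 := sum_le_sum h1
  rw [sum_range_sub'] at h2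
  rw [h.closed, sub_self] at h2
  linarith

/-- a closed path with product less than one gives a small multiplier -/
theorem small_of_path (D : Data d m r b e) (hC : Class d m r e C ρ)
    (hp : ∀ B ∈ C, succ d e B = 1 ∨ succ d e B = d) {G : ℤ × ℕ} (hG : G ∈ C)
    (hGd : succ d e G = d) {p : ℕ} {γ : ℕ → ℤ × ℕ} (h : ClosedPath d m r e C p γ)
    (hgt : pathProd d m p γ < 1) : ∃ j ∈ range d, pot d m r b e ((j : ℤ), 1) < 0 := by
  by_contra hcon
  push Not at hcon
  rw [pathProd_eq D hC h] at hgt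
  have hlog : ∑ t ∈ range p, Real.log (β d b e (γ t)) < 0 := by
    rw [← Real.log_prod (fun t _ => (β_pos D (γ t)).ne')]
    exact Real.log_neg (prod_pos fun t _ => β_pos D (γ t)) hgt
  have h1 : ∀ t ∈ range p,
      pot d m r b e (γ t) - pot d m r b e (γ (t + 1)) ≤ Real.log (β d b e (γ t)) := by
    intro t ht
    rw [mem_range] at ht
    have hm := mem_path hC h t ht.le
    have hP := h.step t ht
    by_cases hf : succ d e (γ t) = d
    · rw [← pot_full (b := b) D hf]
      obtain ⟨a1, a2, a3⟩ := (full_P D hC hm hf _).1 hP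
      have h2 : γ (t + 1) = (((γ (t + 1)).1.toNat : ℤ), 1) := by
        apply Prod.ext
        · simp only
          omega
        · exact a1
      have h3 : 0 ≤ pot d m r b e (γ (t + 1)) := by
        rw [h2]
        apply hcon
        rw [mem_range]
        omega
      linarith
    · have h3 : succ d e (γ t) = 1 := (hp _ hm).resolve_right hf
      rw [pot_step D hf h3 (exists_hit D hC hp hG hGd hm), nx_unique D hC hm h3 hP]
      linarith
  have h2 := sum_le_sum h1
  rw [sum_range_sub'] at h2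
  rw [h.closed, sub_self] at h2
  linarith

/-- The accelerated map `x ↦ (m'_i x - r'_i) / d`, `x ≡ i mod d`. -/
def T1 (d : ℕ) (m r : ℕ → ℤ) (x : ℤ) : ℤ := (m (x % d).toNat * x - r (x % d).toNat) / d

/-- **Reduction.** A class in which every state has one or `d` successors, and some state has `d`,
contains all integers, and the map is accelerated to a map of coprime type. -/
theorem reduction (D : Data d m r b e) (hC : Class d m r e C ρ)
    (hp : ∀ B ∈ C, succ d e B = 1 ∨ succ d e B = d) {G : ℤ × ℕ} (hG : G ∈ C)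
    (hGd : succ d e G = d) :
    S d C = Set.univ ∧ ∃ (m' r' : ℕ → ℤ) (ν : ℕ → ℕ) (κ : ℝ), 0 < κ ∧
      (∀ i < d, IsCoprime (m' i) (d : ℤ)) ∧ (∀ i < d, r' i ≡ i * m' i [ZMOD d]) ∧
      (∀ i, 1 ≤ ν i) ∧
      (∀ x : ℤ, T1 d m' r' x = (T d m r)^[ν (x % d).toNat] x) ∧
      (∏ i ∈ range d, |(m' i : ℝ) / d|) = Lam d m C ρ ^ κ ∧
      ((∃ p γ, ClosedPath d m r e C p γ ∧ 1 < pathProd d m p γ) → ∃ i < d, (d : ℤ) < |m' i|) ∧
      ((∃ p γ, ClosedPath d m r e C p γ ∧ pathProd d m p γ < 1) → ∃ i < d, |m' i| < (d : ℤ)) := by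
  have hd := d_pos D
  have hd2 := D.two_le
  have hdR : (0 : ℝ) < d := by exact_mod_cast hd
  have hmem : ∀ j : ℤ, 0 ≤ j → j < d → (j, 1) ∈ C := res_mem D hC hG hGd
  constructor
  · rw [Set.eq_univ_iff_forall]
    intro x
    refine ⟨(x % d, 1), hmem _ (res0 D x) (res1 D x), ?_⟩
    simp only [mul_one]
    exact (Int.mod_modEq _ _).symm
  set ν : ℕ → ℕ := fun j => hit d m r e ((j : ℤ), 1) + 1 with hν
  set m' : ℕ → ℤ := fun j => bt d m r b e ((j : ℤ), 1) with hm'
  set r' : ℕ → ℤ := fun j => m' j * j - d * (T d m r)^[ν j] (j : ℤ) with hr'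
  have hpotj : ∀ j ∈ range d, pot d m r b e ((j : ℤ), 1) = Real.log |(m' j : ℝ) / d| := by
    intro j _
    have h0 : (m' j : ℝ) ≠ 0 := by exact_mod_cast bt_ne D _
    unfold pot
    rw [abs_div, abs_of_pos hdR, Real.log_div (abs_ne_zero.2 h0) hdR.ne']
  have hprodpos : 0 < ∏ i ∈ range d, |(m' i : ℝ) / d| := by
    apply prod_pos
    intro j _
    have h0 : (m' j : ℝ) ≠ 0 := by exact_mod_cast bt_ne D _
    exact abs_pos.2 (div_ne_zero h0 hdR.ne')
  have hρ : 0 < ∑ B ∈ C.filter (fun B => succ d e B = d), ρ B := by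
    apply sum_pos
    · intro B hB
      exact ρ_pos hC B (mem_filter.1 hB).1
    · exact ⟨G, mem_filter.2 ⟨hG, hGd⟩⟩
  have hcmp : ∀ j ∈ range d, (0 < pot d m r b e ((j : ℤ), 1) → (d : ℤ) < |m' j|) ∧
      (pot d m r b e ((j : ℤ), 1) < 0 → |m' j| < (d : ℤ)) := by
    intro j hj
    rw [hpotj j hj]
    have h0 : (m' j : ℝ) ≠ 0 := by exact_mod_cast bt_ne D _
    have h1 : 0 < |(m' j : ℝ) / d| := abs_pos.2 (div_ne_zero h0 hdR.ne')
    have h2 : |(m' j : ℝ) / d| = ((|m' j| : ℤ) : ℝ) / d := by
      rw [abs_div, abs_of_pos hdR]; push_cast; rfl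
    constructor
    · intro h
      have h3 := (Real.log_pos_iff h1.le).1 h
      rw [h2, lt_div_iff₀ hdR, one_mul] at h3
      exact_mod_cast h3
    · intro h
      have h3 := (Real.log_neg_iff h1).1 h
      rw [h2, div_lt_one hdR] at h3
      exact_mod_cast h3
  refine ⟨m', r', ν, d / ∑ B ∈ C.filter (fun B => succ d e B = d), ρ B, by positivity, ?_, ?_, ?_,
    ?_, ?_, ?_, ?_⟩
  · intro i _
    exact bt_coprime D _
  · intro i _
    rw [Int.modEq_iff_dvd]
    refine ⟨(T d m r)^[ν i] (i : ℤ), ?_⟩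
    rw [hr']
    ring
  · intro i
    exact Nat.le_add_left 1 _
  · intro x
    have hj0 := res0 D x
    have hj1 := res1 D x
    set j := (x % (d : ℤ)).toNat with hj
    have hjx : (j : ℤ) = x % d := by omega
    have hB : ((j : ℤ), 1) ∈ C := hmem _ (by omega) (by omega)
    have h := affine D hC hp hG hGd (hit d m r e ((j : ℤ), 1)) _ hB rfl x j (by
      simp only [mul_one]
      rw [hjx]
      exact (Int.mod_modEq _ _).symm) (Int.ModEq.refl _)
    simp only [Nat.cast_one, mul_one] at h
    change (m' j * x - r' j) / d = (T d m r)^[ν j] x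
    have h2 : m' j * x - r' j = d * (T d m r)^[ν j] x := by
      rw [hr']
      simp only
      rw [hν]
      simp only
      rw [hm']
      simp only
      linarith
    rw [h2, Int.mul_ediv_cancel_left _ (by omega)]
  · have hmean := mean D hC hp hG hGd
    rw [sum_congr rfl hpotj, ← Real.log_prod (fun i _ => by
      have h0 : (m' i : ℝ) ≠ 0 := by exact_mod_cast bt_ne D _
      exact (abs_pos.2 (div_ne_zero h0 hdR.ne')).ne')] at hmean
    have hLp := Lam_pos D (C := C) (ρ := ρ)
    rw [← Real.exp_log hprodpos, Real.rpow_def_of_pos hLp, hmean]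
    congr 1
    field_simp
  · rintro ⟨p, γ, h1, h2⟩
    obtain ⟨j, hj, h3⟩ := big_of_path D hC hp hG hGd h1 h2
    exact ⟨j, mem_range.1 hj, (hcmp j hj).1 h3⟩
  · rintro ⟨p, γ, h1, h2⟩
    obtain ⟨j, hj, h3⟩ := small_of_path D hC hp hG hGd h1 h2
    exact ⟨j, mem_range.1 hj, (hcmp j hj).2 h3⟩

end Pool.Agent.Q277.PC
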