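import Mathlib
import Pool.Agent.Q277.PC.Red
import Pool.Agent.Results.MP_39d40e_nt.PowerRate
import Pool.Agent.Results.MP_39d40e_nt.UnrelatedTrajectories
import Pool.Agent.Results.MP_39d40e_nt.NaturalDensities
import Pool.Agent.Results.MP_39d40e_nt.ExpandingCycles
import Pool.Agent.Results.MP_39d40e_nt.UnmixedClasses

set_option autoImplicit false

/-!
Leigh's chain: consequences of the reduction to coprime type.
-/

namespace Pool.Agent.Q277.PC

open Finset Filter Pool.Agent.H319R2.Leigh Pool.Agent.W44.LM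
open Pool.Agent.Results.MP_39d40e_nt

/-! ### accelerations -/

section accel

variable {f g : ℤ → ℤ} (hfg : ∀ x : ℤ, ∃ k : ℕ, 1 ≤ k ∧ g x = f^[k] x)

include hfg

theorem iter_accel (n : ℕ) (x : ℤ) : ∃ k : ℕ, n ≤ k ∧ g^[n] x = f^[k] x := by
  induction n with
  | zero => exact ⟨0, le_rfl, rfl⟩
  | succ n ih =>
    obtain ⟨k, hk, h⟩ := ih
    obtain ⟨l, hl, h2⟩ := hfg (g^[n] x)
    refine ⟨l + k, by omega, ?_⟩
    rw [Function.iterate_succ_apply', h2, h, Function.iterate_add_apply]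

theorem iter_accel_add (n p : ℕ) (x : ℤ) :
    ∃ k l : ℕ, p ≤ l ∧ g^[n] x = f^[k] x ∧ g^[n + p] x = f^[k + l] x := by
  obtain ⟨k, -, h⟩ := iter_accel hfg n x
  obtain ⟨l, hl, h2⟩ := iter_accel hfg p (g^[n] x)
  refine ⟨k, l, hl, h, ?_⟩
  rw [add_comm n p, Function.iterate_add_apply, h2, h, ← Function.iterate_add_apply, add_comm l k]

/-- a trajectory of the map cycles if and only if the trajectory of the accelerated map does -/
theorem cycles_iff (x : ℤ) : (∃ n p : ℕ, 0 < p ∧ f^[n + p] x = f^[n] x) ↔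
    ∃ n p : ℕ, 0 < p ∧ g^[n + p] x = g^[n] x := by
  constructor
  · rintro ⟨n, p, hp, h⟩
    have hfin : (Set.range fun k : ℕ => f^[k] x).Finite := by
      apply ((Set.finite_Iio (n + p)).image fun k => f^[k] x).subset
      rintro _ ⟨k, rfl⟩
      induction k using Nat.strong_induction_on with
      | _ k ih =>
        by_cases hk : k < n + p
        · exact ⟨k, hk, rfl⟩
        · obtain ⟨j, hj, hj2⟩ := ih (k - p) (by omega)
          refine ⟨j, hj, ?_⟩
          change f^[j] x = f^[k] x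
          have e1 : k = (k - n - p) + (n + p) := by omega
          have e2 : k - p = (k - n - p) + n := by omega
          have hj3 : f^[j] x = f^[k - p] x := hj2
          rw [hj3]
          conv_rhs => rw [e1, Function.iterate_add_apply, h, ← Function.iterate_add_apply, ← e2]
    have hfin2 : (Set.range fun k : ℕ => g^[k] x).Finite := by
      apply hfin.subset
      rintro _ ⟨k, rfl⟩
      obtain ⟨l, -, h2⟩ := iter_accel hfg k x
      exact ⟨l, h2.symm⟩
    obtain ⟨a, -, b, -, hab, hE⟩ := Set.infinite_univ.exists_ne_map_eq_of_mapsTo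
      (f := fun k : ℕ => g^[k] x) (t := Set.range fun k : ℕ => g^[k] x)
      (fun k _ => ⟨k, rfl⟩) hfin2
    rcases lt_or_gt_of_ne hab with h1 | h1
    · exact ⟨a, b - a, by omega, by rw [show a + (b - a) = b by omega]; exact hE.symm⟩
    · exact ⟨b, a - b, by omega, by rw [show b + (a - b) = a by omega]; exact hE⟩
  · rintro ⟨n, p, hp, h⟩
    obtain ⟨k, l, hl, h1, h2⟩ := iter_accel_add hfg n p x
    exact ⟨k, l, by omega, by rw [← h1, ← h2, h]⟩

end accel

theorem fin_ball (X : ℝ) (p : ℤ → Prop) : {x : ℤ | |(x : ℝ)| ≤ X ∧ p x}.Finite := by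
  refine (Set.finite_Icc (-⌊X⌋) ⌊X⌋).subset ?_
  intro x hx
  have h := abs_le.1 hx.1
  constructor
  · have h1 : -x ≤ ⌊X⌋ := Int.le_floor.2 (by push_cast; linarith [h.1])
    linarith
  · exact Int.le_floor.2 h.2

theorem ncard_ball {X : ℝ} (hX : 1 ≤ X) (p : ℤ → Prop) :
    (Set.ncard {x : ℤ | |(x : ℝ)| ≤ X ∧ p x} : ℝ) ≤ 3 * X := by
  have hsub : {x : ℤ | |(x : ℝ)| ≤ X ∧ p x} ⊆ (Finset.Icc (-⌊X⌋) ⌊X⌋ : Finset ℤ) := by
    intro x hx
    have h := abs_le.1 hx.1
    rw [Finset.coe_Icc]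
    constructor
    · have h1 : -x ≤ ⌊X⌋ := Int.le_floor.2 (by push_cast; linarith [h.1])
      linarith
    · exact Int.le_floor.2 h.2
  have h1 := Set.ncard_le_ncard hsub (Finset.finite_toSet _)
  rw [Set.ncard_coe_finset, Int.card_Icc] at h1
  have h2 : (1 : ℤ) ≤ ⌊X⌋ := Int.le_floor.2 (by simpa using hX)
  have h3 : ((⌊X⌋ + 1 - -⌊X⌋).toNat : ℤ) = 2 * ⌊X⌋ + 1 := by omega
  have h4 : ((⌊X⌋ + 1 - -⌊X⌋).toNat : ℝ) = 2 * (⌊X⌋ : ℝ) + 1 := by exact_mod_cast h3
  have h5 : (Set.ncard {x : ℤ | |(x : ℝ)| ≤ X ∧ p x} : ℝ) ≤ ((⌊X⌋ + 1 - -⌊X⌋).toNat : ℝ) := by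
    exact_mod_cast h1
  have h6 := Int.floor_le X
  linarith

variable {d : ℕ} {m' r' : ℕ → ℤ}

/-- the equation `d T1 x = m' x - r'` -/
theorem T1_mul (hd : 2 ≤ d) (hr : ∀ i < d, r' i ≡ i * m' i [ZMOD d]) (x : ℤ) :
    (d : ℤ) * T1 d m' r' x = m' (x % d).toNat * x - r' (x % d).toNat := by
  have h0 : 0 ≤ x % (d : ℤ) := Int.emod_nonneg _ (by omega)
  have h1 : x % (d : ℤ) < d := Int.emod_lt_of_pos _ (by omega)
  have hlt : (x % (d : ℤ)).toNat < d := by omega
  have hr1 := hr _ hlt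
  unfold T1
  apply Int.mul_ediv_cancel'
  have e1 : (((x % (d : ℤ)).toNat : ℕ) : ℤ) = x % d := by omega
  rw [e1] at hr1
  have h2 : m' (x % d).toNat * x ≡ x % d * m' (x % d).toNat [ZMOD d] := by
    rw [mul_comm]
    exact (Int.mod_modEq x d).symm.mul_right _
  exact (h2.trans hr1.symm).symm.dvd

/-- bound for the constants -/
noncomputable def bigR (d : ℕ) (r' : ℕ → ℤ) : ℤ := ∑ i ∈ range d, |r' i|

theorem le_bigR {i : ℕ} (hi : i < d) : |r' i| ≤ bigR d r' :=
  single_le_sum (f := fun i => |r' i|) (fun _ _ => abs_nonneg _) (mem_range.2 hi)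

/-- all multipliers small: the map descends outside a bounded set -/
theorem small_step (hd : 2 ≤ d) (hr : ∀ i < d, r' i ≡ i * m' i [ZMOD d])
    (hs : ∀ i < d, |m' i| < (d : ℤ)) {x : ℤ} (hx : bigR d r' < |x|) : |T1 d m' r' x| < |x| := by
  have h0 : 0 ≤ x % (d : ℤ) := Int.emod_nonneg _ (by omega)
  have h1 : x % (d : ℤ) < d := Int.emod_lt_of_pos _ (by omega)
  have hlt : (x % (d : ℤ)).toNat < d := by omega
  have e1 := T1_mul hd hr x
  have h2 := le_bigR (r' := r') hlt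
  have h3 := hs _ hlt
  have h4 : (d : ℤ) * |T1 d m' r' x| ≤ (d - 1) * |x| + bigR d r' := by
    have hdp : (0 : ℤ) ≤ d := by positivity
    calc (d : ℤ) * |T1 d m' r' x| = |(d : ℤ) * T1 d m' r' x| := by
          rw [abs_mul, abs_of_nonneg hdp]
      _ = |m' (x % d).toNat * x - r' (x % d).toNat| := by rw [e1]
      _ ≤ |m' (x % d).toNat * x| + |r' (x % d).toNat| := abs_sub _ _
      _ ≤ (d - 1) * |x| + bigR d r' := by
          rw [abs_mul]
          have h5 : |m' (x % d).toNat| * |x| ≤ ((d : ℤ) - 1) * |x| :=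
            mul_le_mul_of_nonneg_right (by omega) (abs_nonneg _)
          linarith
  have hdp : (0 : ℤ) < d := by omega
  have h5 : (d : ℤ) * |T1 d m' r' x| < d * |x| := by
    have : ((d : ℤ) - 1) * |x| + bigR d r' < d * |x| := by
      have : ((d : ℤ) - 1) * |x| = d * |x| - |x| := by ring
      linarith
    linarith
  exact lt_of_mul_lt_mul_left h5 hdp.le

theorem small_enters (hd : 2 ≤ d) (hr : ∀ i < d, r' i ≡ i * m' i [ZMOD d])
    (hs : ∀ i < d, |m' i| < (d : ℤ)) (x : ℤ) : ∃ n : ℕ, |(T1 d m' r')^[n] x| ≤ bigR d r' := by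
  have key : ∀ N : ℕ, ∀ x : ℤ, |x| ≤ N → ∃ n : ℕ, |(T1 d m' r')^[n] x| ≤ bigR d r' := by
    intro N
    induction N with
    | zero =>
      intro x hx
      refine ⟨0, ?_⟩
      simp only [Function.iterate_zero, id]
      have : (0 : ℤ) ≤ bigR d r' := sum_nonneg fun _ _ => abs_nonneg _
      push_cast at hx
      linarith
    | succ N ih =>
      intro x hx
      by_cases h : |x| ≤ bigR d r'
      · exact ⟨0, h⟩
      · push Not at h
        have h1 := small_step hd hr hs h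
        push_cast at hx
        obtain ⟨n, hn⟩ := ih (T1 d m' r' x) (by omega)
        exact ⟨n + 1, by rwa [Function.iterate_succ_apply]⟩
  exact key x.natAbs x (by rw [Int.abs_eq_natAbs])

/-- all multipliers large: the map ascends outside a bounded set -/
theorem big_step (hd : 2 ≤ d) (hr : ∀ i < d, r' i ≡ i * m' i [ZMOD d])
    (hs : ∀ i < d, (d : ℤ) < |m' i|) {x : ℤ} (hx : bigR d r' < |x|) : |x| < |T1 d m' r' x| := by
  have h0 : 0 ≤ x % (d : ℤ) := Int.emod_nonneg _ (by omega)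
  have h1 : x % (d : ℤ) < d := Int.emod_lt_of_pos _ (by omega)
  have hlt : (x % (d : ℤ)).toNat < d := by omega
  have e1 := T1_mul hd hr x
  have h2 := le_bigR (r' := r') hlt
  have h3 := hs _ hlt
  have hdp : (0 : ℤ) < d := by omega
  have h4 : ((d : ℤ) + 1) * |x| - bigR d r' ≤ (d : ℤ) * |T1 d m' r' x| := by
    calc ((d : ℤ) + 1) * |x| - bigR d r' ≤ |m' (x % d).toNat * x| - |r' (x % d).toNat| := by
          rw [abs_mul]
          have h5 : ((d : ℤ) + 1) * |x| ≤ |m' (x % d).toNat| * |x| :=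
            mul_le_mul_of_nonneg_right (by omega) (abs_nonneg _)
          linarith
      _ ≤ |m' (x % d).toNat * x - r' (x % d).toNat| := abs_sub_abs_le_abs_sub _ _
      _ = |(d : ℤ) * T1 d m' r' x| := by rw [e1]
      _ = (d : ℤ) * |T1 d m' r' x| := by rw [abs_mul, abs_of_pos hdp]
  have h5 : (d : ℤ) * |x| < d * |T1 d m' r' x| := by
    have : ((d : ℤ) + 1) * |x| = d * |x| + |x| := by ring
    linarith
  exact lt_of_mul_lt_mul_left h5 hdp.le

theorem big_periodic (hd : 2 ≤ d) (hr : ∀ i < d, r' i ≡ i * m' i [ZMOD d])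
    (hs : ∀ i < d, (d : ℤ) < |m' i|) {x : ℤ} {p : ℕ} (hp : 1 ≤ p)
    (hx : (T1 d m' r')^[p] x = x) : |x| ≤ bigR d r' := by
  by_contra hcon
  push Not at hcon
  have key : ∀ n : ℕ, |x| + n ≤ |(T1 d m' r')^[n] x| := by
    intro n
    induction n with
    | zero => simp
    | succ n ih =>
      have h1 : bigR d r' < |(T1 d m' r')^[n] x| := by
        have : (0 : ℤ) ≤ n := by positivity
        linarith
      have h2 := big_step hd hr hs h1
      rw [Function.iterate_succ_apply']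
      push_cast
      linarith
  have h := key p
  rw [hx] at h
  omega

/-- power rate for the maps of coprime type -/
theorem power (hd : 2 ≤ d) (hm : ∀ i < d, IsCoprime (m' i) (d : ℤ))
    (hr : ∀ i < d, r' i ≡ i * m' i [ZMOD d]) (hL : ∏ i ∈ range d, |(m' i : ℝ) / d| < 1) :
    ∃ c K : ℝ, 0 < c ∧ 0 < K ∧ ∀ X y : ℝ, 1 ≤ X → 1 ≤ y →
      (Set.ncard {x : ℤ | |(x : ℝ)| ≤ X ∧ ∀ n : ℕ, y < |(((T1 d m' r')^[n] x : ℤ) : ℝ)|} : ℝ) ≤
        K * X / y ^ c := by
  by_cases hb : ∃ i < d, (d : ℤ) < |m' i|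
  · obtain ⟨c, hc, -, h⟩ := PowerRate.result d hd m' hm hL hb
    obtain ⟨K, hK, h2⟩ := h r' hr
    exact ⟨c, K, hc, hK, h2⟩
  · have hs : ∀ i < d, |m' i| < (d : ℤ) := by
      intro i hi
      push Not at hb
      rcases lt_or_eq_of_le (hb i hi) with h | h
      · exact h
      · exfalso
        have h1 := hm i hi
        have h2 : (d : ℤ) ∣ m' i := by rw [← dvd_abs, h]
        have h3 := h1.isUnit_of_dvd' h2 (dvd_refl _)
        rw [Int.isUnit_iff] at h3
        omega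
    have hR0 : (0 : ℝ) ≤ (bigR d r' : ℤ) := by
      have : (0 : ℤ) ≤ bigR d r' := sum_nonneg fun _ _ => abs_nonneg _
      exact_mod_cast this
    refine ⟨1, 3 * ((bigR d r' : ℤ) + 1), one_pos, by positivity, ?_⟩
    intro X y hX hy
    rw [Real.rpow_one]
    by_cases hyR : y < (bigR d r' : ℤ) + 1
    · have h1 := ncard_ball hX (fun x => ∀ n : ℕ, y < |(((T1 d m' r')^[n] x : ℤ) : ℝ)|)
      refine h1.trans ?_
      rw [le_div_iff₀ (by linarith)]
      have : 3 * X * y ≤ 3 * X * ((bigR d r' : ℤ) + 1) := by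
        apply mul_le_mul_of_nonneg_left hyR.le (by linarith)
      linarith
    · push Not at hyR
      have hempty : {x : ℤ | |(x : ℝ)| ≤ X ∧ ∀ n : ℕ, y < |(((T1 d m' r')^[n] x : ℤ) : ℝ)|} = ∅ := by
        rw [Set.eq_empty_iff_forall_notMem]
        rintro x ⟨-, hx⟩
        obtain ⟨n, hn⟩ := small_enters hd hr hs x
        have h1 := hx n
        have h2 : |(((T1 d m' r')^[n] x : ℤ) : ℝ)| ≤ (bigR d r' : ℤ) := by exact_mod_cast hn
        linarith
      rw [hempty, Set.ncard_empty]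
      push_cast
      positivity

/-- unrelated trajectories for the maps of coprime type -/
theorem unrelated (hd : 2 ≤ d) (hm : ∀ i < d, IsCoprime (m' i) (d : ℤ))
    (hr : ∀ i < d, r' i ≡ i * m' i [ZMOD d]) (hL : ∏ i ∈ range d, |(m' i : ℝ) / d| < 1) :
    ∃ η K : ℝ, 0 < η ∧ η < 1 ∧ 0 < K ∧ ∀ X : ℝ, 1 ≤ X → ∀ F : Finset ℤ, (∀ x ∈ F, |(x : ℝ)| ≤ X) →
      (∀ x ∈ F, ∀ y ∈ F, x ≠ y → ∀ a b : ℕ, (T1 d m' r')^[a] x ≠ (T1 d m' r')^[b] y) →
      (F.card : ℝ) ≤ K * X ^ η := by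
  by_cases hb : ∃ i < d, (d : ℤ) < |m' i|
  · obtain ⟨η, hη, hη1, h⟩ := UnrelatedTrajectories.result d hd m' hm hL hb
    obtain ⟨K, hK, h2⟩ := h r' hr
    have hd1 : (1 : ℝ) < d := by exact_mod_cast hd
    have h3 := hη1 0 le_rfl
    simp only [Real.rpow_zero, sum_const, card_range, nsmul_eq_mul, mul_one] at h3
    rw [div_self (Real.log_pos hd1).ne'] at h3
    exact ⟨η, K, hη, h3, hK, h2⟩
  · have hs : ∀ i < d, |m' i| < (d : ℤ) := by
      intro i hi
      push Not at hb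
      rcases lt_or_eq_of_le (hb i hi) with h | h
      · exact h
      · exfalso
        have h1 := hm i hi
        have h2 : (d : ℤ) ∣ m' i := by rw [← dvd_abs, h]
        have h3 := h1.isUnit_of_dvd' h2 (dvd_refl _)
        rw [Int.isUnit_iff] at h3
        omega
    have hR0 : (0 : ℤ) ≤ bigR d r' := sum_nonneg fun _ _ => abs_nonneg _
    refine ⟨1 / 2, 2 * (bigR d r' : ℤ) + 1, by norm_num, by norm_num, by positivity, ?_⟩
    intro X hX F _ hF
    choose n hn using small_enters hd hr hs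
    have h1 : F.card ≤ (Finset.Icc (-bigR d r') (bigR d r')).card := by
      apply card_le_card_of_injOn (fun x => (T1 d m' r')^[n x] x)
      · intro x _
        have := abs_le.1 (hn x)
        exact mem_coe.2 (Finset.mem_Icc.2 this)
      · intro x hx y hy hxy
        by_contra hne
        exact hF x hx y hy hne (n x) (n y) hxy
    rw [Int.card_Icc] at h1
    have h2 : ((bigR d r' + 1 - -bigR d r').toNat : ℤ) = 2 * bigR d r' + 1 := by omega
    have h3 : ((F.card : ℕ) : ℤ) ≤ 2 * bigR d r' + 1 := by omega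
    have h4 : (F.card : ℝ) ≤ 2 * (bigR d r' : ℤ) + 1 := by exact_mod_cast h3
    have h5 : (1 : ℝ) ≤ X ^ (1 / 2 : ℝ) := Real.one_le_rpow hX (by norm_num)
    have h6 : (0 : ℝ) ≤ 2 * (bigR d r' : ℤ) + 1 := by positivity
    calc (F.card : ℝ) ≤ (2 * (bigR d r' : ℤ) + 1) * 1 := by linarith
      _ ≤ _ := mul_le_mul_of_nonneg_left h5 h6

end Pool.Agent.Q277.PC
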