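import Mathlib
import Pool.Agent.Q277.PC.Cons

set_option autoImplicit false

/-!
Leigh's chain: cycles, and the classes without random states.
-/

namespace Pool.Agent.Q277.PC

open Finset Filter Pool.Agent.H319R2.Leigh Pool.Agent.W44.LM
open Pool.Agent.Results.MP_39d40e_nt
open ExpandingCycles (IsCycle)

theorem IsCycle.eq_orbit {f : ℤ → ℤ} {c : Finset ℤ} (h : IsCycle f c) {z : ℤ} (hz : z ∈ c) :
    (c : Set ℤ) = Set.range fun k : ℕ => f^[k] z := by
  obtain ⟨x, p, hp, hx, rfl⟩ := h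
  have hper : Function.IsPeriodicPt f p x := hx
  rw [mem_image] at hz
  obtain ⟨j, hj, rfl⟩ := hz
  rw [mem_range] at hj
  apply Set.Subset.antisymm
  · intro w hw
    rw [mem_coe, mem_image] at hw
    obtain ⟨i, hi, rfl⟩ := hw
    refine ⟨i + (p - j), ?_⟩
    change f^[i + (p - j)] (f^[j] x) = f^[i] x
    rw [← Function.iterate_add_apply, show i + (p - j) + j = i + p by omega,
      Function.iterate_add_apply, hx]
  · rintro _ ⟨k, rfl⟩
    rw [mem_coe, mem_image]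
    refine ⟨(k + j) % p, mem_range.2 (Nat.mod_lt _ (by omega)), ?_⟩
    change f^[(k + j) % p] x = f^[k] (f^[j] x)
    rw [hper.iterate_mod_apply, Function.iterate_add_apply]

theorem IsCycle.nonempty {f : ℤ → ℤ} {c : Finset ℤ} (h : IsCycle f c) : c.Nonempty := by
  obtain ⟨x, p, hp, hx, rfl⟩ := h
  exact ⟨_, mem_image.2 ⟨0, mem_range.2 (by omega), rfl⟩⟩

/-- a cycle of the map contains a cycle of the accelerated map -/
theorem exists_subcycle {f g : ℤ → ℤ} (hfg : ∀ x : ℤ, ∃ k : ℕ, 1 ≤ k ∧ g x = f^[k] x)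
    {c : Finset ℤ} (h : IsCycle f c) : ∃ c' : Finset ℤ, IsCycle g c' ∧ c' ⊆ c := by
  obtain ⟨x, hx⟩ := IsCycle.nonempty h
  have horb := IsCycle.eq_orbit h hx
  have hmem : ∀ k : ℕ, g^[k] x ∈ c := by
    intro k
    obtain ⟨l, -, h2⟩ := iter_accel hfg k x
    rw [h2, ← mem_coe, horb]
    exact ⟨l, rfl⟩
  obtain ⟨a, -, b, -, hab, hE⟩ := Set.infinite_univ.exists_ne_map_eq_of_mapsTo
    (f := fun k : ℕ => g^[k] x) (t := (c : Set ℤ)) (fun k _ => hmem k) (Finset.finite_toSet c)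
  have key : ∃ n p : ℕ, 1 ≤ p ∧ g^[p] (g^[n] x) = g^[n] x := by
    have hE' : g^[a] x = g^[b] x := hE
    rcases lt_or_gt_of_ne hab with h1 | h1
    · refine ⟨a, b - a, by omega, ?_⟩
      rw [← Function.iterate_add_apply, show b - a + a = b by omega, hE']
    · refine ⟨b, a - b, by omega, ?_⟩
      rw [← Function.iterate_add_apply, show a - b + b = a by omega, hE']
  obtain ⟨n, p, hp, h1⟩ := key
  refine ⟨(range p).image fun j => g^[j] (g^[n] x), ⟨g^[n] x, p, hp, h1, rfl⟩, ?_⟩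
  intro z hz
  rw [mem_image] at hz
  obtain ⟨j, -, rfl⟩ := hz
  rw [← Function.iterate_add_apply]
  exact hmem _

/-- sets of integers in a finite set -/
theorem ncard_sets_le (A : Set (Finset ℤ)) (s : Finset ℤ) (h : ∀ c ∈ A, c ⊆ s) :
    A.Finite ∧ (A.ncard : ℝ) ≤ (s.powerset.card : ℝ) := by
  have hsub : A ⊆ (s.powerset : Finset (Finset ℤ)) := by
    intro c hc
    rw [mem_coe, mem_powerset]
    exact h c hc
  refine ⟨(Finset.finite_toSet _).subset hsub, ?_⟩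
  have h1 := Set.ncard_le_ncard hsub (Finset.finite_toSet _)
  rw [Set.ncard_coe_finset] at h1
  exact_mod_cast h1

theorem abs_le_floor {x : ℤ} {X : ℝ} (h : |(x : ℝ)| ≤ X) : x ∈ Finset.Icc (-⌊X⌋) ⌊X⌋ := by
  have h2 := abs_le.1 h
  rw [Finset.mem_Icc]
  constructor
  · have h1 : -x ≤ ⌊X⌋ := Int.le_floor.2 (by push_cast; linarith [h2.1])
    linarith
  · exact Int.le_floor.2 h2.2

/-- the number of cycles of the map is at most the number of cycles of the accelerated map -/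
theorem cycles_le {f g : ℤ → ℤ} (hfg : ∀ x : ℤ, ∃ k : ℕ, 1 ≤ k ∧ g x = f^[k] x) (X : ℝ) :
    {c : Finset ℤ | IsCycle f c ∧ ∀ x ∈ c, |(x : ℝ)| ≤ X}.ncard ≤
      {c : Finset ℤ | IsCycle g c ∧ ∀ x ∈ c, |(x : ℝ)| ≤ X}.ncard := by
  classical
  have hfin : {c : Finset ℤ | IsCycle g c ∧ ∀ x ∈ c, |(x : ℝ)| ≤ X}.Finite :=
    (ncard_sets_le _ (Finset.Icc (-⌊X⌋) ⌊X⌋) fun c hc x hx => abs_le_floor (hc.2 x hx)).1
  have hch : ∀ c : Finset ℤ, ∃ c' : Finset ℤ, IsCycle f c → IsCycle g c' ∧ c' ⊆ c := by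
    intro c
    by_cases h : IsCycle f c
    · obtain ⟨c', h1, h2⟩ := exists_subcycle hfg h
      exact ⟨c', fun _ => ⟨h1, h2⟩⟩
    · exact ⟨∅, fun h' => absurd h' h⟩
  choose φ hφ using hch
  apply Set.ncard_le_ncard_of_injOn φ _ _ hfin
  · rintro c ⟨h1, h2⟩
    exact ⟨(hφ c h1).1, fun x hx => h2 x ((hφ c h1).2 hx)⟩
  · rintro c ⟨h1, -⟩ c' ⟨h1', -⟩ hcc
    obtain ⟨z, hz⟩ := IsCycle.nonempty (hφ c h1).1
    have hz1 := (hφ c h1).2 hz
    rw [hcc] at hz
    have hz2 := (hφ c' h1').2 hz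
    have e1 := IsCycle.eq_orbit h1 hz1
    have e2 := IsCycle.eq_orbit h1' hz2
    rw [← e2] at e1
    exact_mod_cast e1

variable {d : ℕ} {m' r' : ℕ → ℤ}

/-- the number of cycles for the expanding maps of coprime type -/
theorem expanding (hd : 2 ≤ d) (hm : ∀ i < d, IsCoprime (m' i) (d : ℤ))
    (hr : ∀ i < d, r' i ≡ i * m' i [ZMOD d]) (hL : 1 < ∏ i ∈ range d, |(m' i : ℝ) / d|) :
    ∃ η K : ℝ, 0 < η ∧ η < 1 ∧ 0 < K ∧ ∀ X : ℝ, 1 ≤ X →
      ({c : Finset ℤ | IsCycle (T1 d m' r') c ∧ ∀ x ∈ c, |(x : ℝ)| ≤ X}.ncard : ℝ) ≤ K * X ^ η := by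
  by_cases hb : ∃ i < d, |m' i| < (d : ℤ)
  · obtain ⟨η, hη, hη1, -, h⟩ := ExpandingCycles.result d hd m' hm hL hb
    obtain ⟨K, hK, h2⟩ := h r' hr
    exact ⟨η, K, hη, hη1, hK, h2⟩
  · have hs : ∀ i < d, (d : ℤ) < |m' i| := by
      intro i hi
      push Not at hb
      rcases lt_or_eq_of_le (hb i hi) with h | h
      · exact h
      · exfalso
        have h1 := hm i hi
        have h2 : (d : ℤ) ∣ m' i := by rw [← dvd_abs, ← h]
        have h3 := h1.isUnit_of_dvd' h2 (dvd_refl _)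
        rw [Int.isUnit_iff] at h3
        omega
    refine ⟨1 / 2, ((Finset.Icc (-bigR d r') (bigR d r')).powerset.card : ℝ), by norm_num,
      by norm_num, ?_, ?_⟩
    · rw [card_powerset]; positivity
    intro X hX
    have h1 := (ncard_sets_le {c : Finset ℤ | IsCycle (T1 d m' r') c ∧ ∀ x ∈ c, |(x : ℝ)| ≤ X}
      (Finset.Icc (-bigR d r') (bigR d r')) (by
        rintro c ⟨hc, -⟩ z hz
        obtain ⟨x, p, hp, hx, rfl⟩ := hc
        rw [mem_image] at hz
        obtain ⟨j, -, rfl⟩ := hz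
        rw [Finset.mem_Icc]
        apply abs_le.1
        apply big_periodic hd hr hs hp
        rw [← Function.iterate_add_apply, add_comm, Function.iterate_add_apply, hx])).2
    have h5 : (1 : ℝ) ≤ X ^ (1 / 2 : ℝ) := Real.one_le_rpow hX (by norm_num)
    have h6 : (0 : ℝ) ≤ ((Finset.Icc (-bigR d r') (bigR d r')).powerset.card : ℝ) := by positivity
    exact h1.trans (le_mul_of_one_le_right h6 h5)

variable {m r b : ℤ → ℤ} {e : ℤ → ℕ} {C : Finset (ℤ × ℕ)} {ρ : ℤ × ℕ → ℝ}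

/-- a class without random states does not contract -/
theorem one_le_Lam (D : Data d m r b e) (hC : Class d m r e C ρ)
    (h : ∀ B ∈ C, succ d e B = 1) : 1 ≤ Lam d m C ρ := by
  have h1 := log_Lam_β D hC
  have h2 : 0 ≤ Real.log (Lam d m C ρ) := by
    rw [h1]
    apply sum_nonneg
    intro B hB
    apply mul_nonneg (hC.nonneg B hB)
    rw [log_β D, h B hB]
    have h3 : (1 : ℝ) ≤ ((|b (B.1 % d)| : ℤ) : ℝ) := by
      have : (1 : ℤ) ≤ |b (B.1 % d)| := Int.one_le_abs (b_ne D B.1)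
      exact_mod_cast this
    simp only [Nat.cast_one, Real.log_one, sub_zero]
    exact Real.log_nonneg h3
  have hpos := Lam_pos D (C := C) (ρ := ρ)
  by_contra hcon
  push Not at hcon
  have := Real.log_neg hpos hcon
  linarith

/-- the cycles of an expanding class without random states -/
theorem det_cycles (D : Data d m r b e) (hC : Class d m r e C ρ)
    (h : ∀ B ∈ C, succ d e B = 1) (hL : 1 < Lam d m C ρ) :
    ∃ K : ℝ, 0 < K ∧ ∀ X : ℝ, 1 ≤ X →
      ({c : Finset ℤ | IsCycle (T d m r) c ∧ ∀ x ∈ c, x ∈ S d C ∧ |(x : ℝ)| ≤ X}.ncard : ℝ) ≤ K := by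
  have hnm := (UnmixedClasses.result d m r b e D C ρ hC).2 (Or.inr (by
    intro B hB
    rw [h B hB]
    exact_mod_cast Int.one_le_abs (b_ne D B.1)))
  obtain ⟨hfin, -⟩ := ((UnmixedClasses.result d m r b e D C ρ hC).1 hnm).2.1 hL
  refine ⟨(hfin.toFinset.powerset.card : ℝ), by rw [card_powerset]; positivity, ?_⟩
  intro X hX
  apply (ncard_sets_le _ hfin.toFinset _).2
  rintro c ⟨hc, hc2⟩ z hz
  rw [Set.Finite.mem_toFinset]
  refine ⟨(hc2 z hz).1, ?_⟩
  intro htend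
  have horb := IsCycle.eq_orbit hc hz
  obtain ⟨B, hB⟩ : ∃ B : ℤ, ∀ x ∈ c, |x| ≤ B := by
    refine ⟨∑ x ∈ c, |x|, fun x hx => single_le_sum (f := fun x : ℤ => |x|)
      (fun _ _ => abs_nonneg _) hx⟩
  have h1 := (htend.eventually (eventually_gt_atTop B)).exists
  obtain ⟨n, hn⟩ := h1
  have h2 : (T d m r)^[n] z ∈ c := by
    rw [← mem_coe, horb]
    exact ⟨n, rfl⟩
  have := hB _ h2
  linarith

end Pool.Agent.Q277.PC
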